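import Pool.Agent.Helper84.SPN.St
import Pool.Agent.Helper70.BN.Def2

/-!
# MP_a2f62e_al: assembly, all known simple groups as composition factors
-/

set_option autoImplicit false

namespace Pool.Agent.Helper84.SPN

open Pool.Agent.Helper75.MX Pool.Agent.Helper70.ML Pool.Agent.Helper84.MXP Pool.Agent.Helper84.MXQ

/-- the symplectic group `Sp_{2n}(F)` (Mathlib's group of symplectic matrices) -/
def SpM (n : ℕ) (F : Type) [Field F] : Type := Matrix.symplecticGroup (Fin n) F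

instance instGroupSpM (n : ℕ) (F : Type) [Field F] : Group (SpM n F) :=
  inferInstanceAs (Group (Matrix.symplecticGroup (Fin n) F))

/-- `Q` is a quotient of a symplectic group `Sp_{2n}(F)`, `n ≥ 2`, `F` a finite field, by a normal subgroup of order at
most two -/
def SpQ (Q : Type) [Group Q] : Prop :=
  ∃ (n : ℕ) (F : Type) (_ : Field F) (_ : Finite F)
    (N : Subgroup (SpM n F)) (_ : N.Normal),
    2 ≤ n ∧ Nat.card N ≤ 2 ∧ Nonempty (Q ≃* (SpM n F ⧸ N))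

/-- The class of composition factors: `S` is alternating or `PSL_n(F)`, or has even order at most `M`, or (`M > 0` and) every
finite perfect group `Q` with centre of odd order and `Q/Z(Q) ≅ S` is a quotient `Sp_{2n}(F)/N`, `|N| ≤ 2`, or belongs to the class
`LieT M` of groups with a BN pair -/
def Fam (M : ℕ) (S : Type) [Group S] : Prop :=
  AltPSL S ∨ (Even (Nat.card S) ∧ Nat.card S ≤ M) ∨
  (0 < M ∧ ∀ (Q : Type) [Group Q] [Finite Q], commutator Q = ⊤ →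
    Odd (Nat.card (Subgroup.center Q)) → Nonempty ((Q ⧸ Subgroup.center Q) ≃* S) →
    SpQ Q ∨ Pool.Agent.Helper70.BN.LieT M Q)

theorem fam_iso (M : ℕ) (S S' : Type) [Group S] [Group S'] (e : Nonempty (S ≃* S'))
    (h : Fam M S) : Fam M S' := by
  obtain ⟨e⟩ := e
  rcases h with h | ⟨hev, hM⟩ | ⟨h0, h⟩
  · exact Or.inl (altPSL_iso S S' ⟨e⟩ h)
  · refine Or.inr (Or.inl ?_)
    rw [← Nat.card_congr e.toEquiv]
    exact ⟨hev, hM⟩
  · refine Or.inr (Or.inr ⟨h0, ?_⟩)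
    intro Q _ _ h1 h2 ⟨f⟩
    exact h Q h1 h2 ⟨f.trans e.symm⟩

theorem good_altpsl (Q : Type) [Group Q] [Finite Q] (hQ : QO Q)
    (h : AltPSL (Q ⧸ Subgroup.center Q)) : StepP Q ∨ Good 6 Q := by
  rcases h with ⟨n, hn, hf⟩ | ⟨n, F, hF, hF', hn, hf⟩
  · exact pALT Q hQ ⟨n, hn, hf⟩
  · rcases Nat.lt_or_ge n 3 with h3 | h3
    · obtain rfl : n = 2 := by omega
      exact hPSL2 F Q hQ hf
    · exact Or.inr (good_psl3 rPPBK n F h3 Q hQ hf)

theorem asm_step (hsp : ∃ C : ℝ, 6 ≤ C ∧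
    ∀ (n : ℕ) (F : Type) [Field F] [Finite F] (N : Subgroup (SpM n F))
      [N.Normal], 2 ≤ n → Nat.card N ≤ 2 → Good C (SpM n F ⧸ N))
    (hLIE : ∀ (a : ℕ) (Q : Type) [Group Q] [Finite Q], Pool.Agent.Helper70.BN.LieT a Q →
      ∃ k : ℕ, Mix Q k ∧ 2 ^ k ≤ Nat.card Q ^ (12 * a + 1)) (M : ℕ) :
    ∃ C : ℝ, 6 ≤ C ∧ ∀ (Q : Type) [Group Q] [Finite Q], QO Q → Fam M (Q ⧸ Subgroup.center Q) →
      StepP Q ∨ Good C Q := by
  obtain ⟨C₁, hC₁, h1⟩ := hsp
  obtain ⟨C₂, hC₂, h2⟩ := good_bdd M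
  refine ⟨max C₁ (max C₂ (12 * M + 1)), le_max_of_le_left hC₁, ?_⟩
  rintro Q _ _ hQ (h | ⟨hev, hM⟩ | ⟨-, h⟩)
  · rcases good_altpsl Q hQ h with h3 | h3
    · exact Or.inl h3
    · exact Or.inr (good_mono (le_max_of_le_left hC₁) h3)
  · exact Or.inr (good_mono (le_max_of_le_right (le_max_left _ _)) (h2 Q hQ hev hM))
  · right
    rcases h Q hQ.1 hQ.2.2 ⟨MulEquiv.refl _⟩ with ⟨n, F, hF, hF', N, hN, hn, hNc, ⟨e⟩⟩ | h
    · exact good_mono (le_max_left _ _) ((pISO _ Q ⟨e.symm⟩).2.1 _ (h1 n F N hn hNc))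
    · obtain ⟨k, hk, hb⟩ := hLIE M Q h
      refine good_mono (le_max_of_le_right (le_max_right _ _)) ⟨k, hk, ?_⟩
      have hQ0 : (0 : ℝ) < Nat.card Q := by exact_mod_cast Nat.card_pos
      have h3 : ((2 : ℝ) ^ k) ≤ (Nat.card Q : ℝ) ^ (12 * M + 1) := by exact_mod_cast hb
      have h4 : Real.logb 2 ((2 : ℝ) ^ k) ≤ Real.logb 2 ((Nat.card Q : ℝ) ^ (12 * M + 1)) :=
        Real.logb_le_logb_of_le (by norm_num) (by positivity) h3
      rw [Real.logb_pow, Real.logb_pow, Real.logb_self_eq_one (by norm_num), mul_one] at h4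
      push_cast at h4
      exact h4

/-- **All known simple groups.** -/
theorem asm (hsp : ∃ C : ℝ, 6 ≤ C ∧
    ∀ (n : ℕ) (F : Type) [Field F] [Finite F] (N : Subgroup (SpM n F))
      [N.Normal], 2 ≤ n → Nat.card N ≤ 2 → Good C (SpM n F ⧸ N))
    (hLIE : ∀ (a : ℕ) (Q : Type) [Group Q] [Finite Q], Pool.Agent.Helper70.BN.LieT a Q →
      ∃ k : ℕ, Mix Q k ∧ 2 ^ k ≤ Nat.card Q ^ (12 * a + 1)) :
    ∃ C : ℕ → ℝ, C 0 = 6 ∧ ∀ (M : ℕ) (G : Type) [Group G] [Finite G],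
    (∀ H : Subgroup G, H.IsSubnormal → ∀ (N : Subgroup H) [N.Normal],
      IsSimpleGroup (H ⧸ N) → (¬ ∀ a b : H ⧸ N, a * b = b * a) → Fam M (H ⧸ N)) →
    Mixable G → (mixlen G : ℝ) ≤ C M * Real.logb 2 (Nat.card G) := by
  classical
  choose c hc6 hc using asm_step hsp hLIE
  refine ⟨fun M => if M = 0 then 6 else c M, if_pos rfl, ?_⟩
  intro M G _ _ h hG
  show (mixlen G : ℝ) ≤ (if M = 0 then 6 else c M) * Real.logb 2 (Nat.card G)
  by_cases hM : M = 0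
  · subst hM
    rw [if_pos rfl]
    refine (final_altPSL rPPBK hPSL2 G ?_ (ts_of_mixable hG)).2
    intro H hH N hN hs hne
    rcases h H hH N hs hne with h1 | ⟨-, h1⟩ | ⟨h1, -⟩
    · exact h1
    · exfalso
      have h2 : 0 < Nat.card (H ⧸ N) := Nat.card_pos
      omega
    · exact absurd h1 (lt_irrefl 0)
  · rw [if_neg hM]
    refine (finG (c M) (hc6 M) G (hypG_of_simple (c M)
      (fun (S : Type) [Group S] => Fam M S) ?_ (fam_iso M) G h) (ts_of_mixable hG)).2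
    intro Q _ _ hQ hP
    exact hc M Q hQ hP

end Pool.Agent.Helper84.SPN
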