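import Pool.Agent.Helper70.BN.M_BSTP
import Pool.Agent.Helper70.BN.M_RPRE
import Pool.Agent.Helper10.BN.M_NDIH
import Pool.Agent.Helper15.BN.M_BHEC
import Pool.Agent.Helper2.BN.M_BINV
import Pool.Agent.Helper22.BN.M_NGEO
import Pool.Agent.Helper27.BN.M_BQUAD
import Pool.Agent.Helper32.BN.M_RINV
import Pool.Agent.Helper34.BN.M_RCONJ
import Pool.Agent.Helper35.BN.M_YB3
import Pool.Agent.Helper36.BN.M_NPRD
import Pool.Agent.Helper36.BN.M_RLAD
import Pool.Agent.Helper37.BN.M_RRED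
import Pool.Agent.Helper40.BN.M_BCST
import Pool.Agent.Helper42.BN.M_BTOR
import Pool.Agent.Helper44.BN.M_LADU
import Pool.Agent.Helper45.BN.M_NBRU
import Pool.Agent.Helper55.BN.M_NSTD
import Pool.Agent.Helper55.BN.M_YB4
import Pool.Agent.Helper57.BN.M_RSTR
import Pool.Agent.Helper61.BN.M_RTWO
import Pool.Agent.Helper7.BN.M_RSWP
import Pool.Agent.Helper71.BN.M_BBRD
import Pool.Agent.Helper71.BN.M_NCRY
import Pool.Agent.Helper87.BN.M_BFOL
import Pool.Agent.Helper88.BN.M_RYB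
import Pool.Agent.Helper94.BN.M_RMAT
import Pool.Agent.Helper95.BN.M_RLONG
import Pool.Agent.Helper99.BN.M_BAVG
import Pool.Agent.Helper70.ML.All2

/-!
# Project BN: assembly
-/

set_option autoImplicit false

namespace Pool.Agent.Helper84.SPN

open Pool.Agent.Helper75.MX Pool.Agent.Helper70.ML Pool.Agent.Helper70.BN

theorem bRINV : StRINV := Pool.Agent.Helper32.BN.hRINV
theorem bRCONJ : StRCONJ := Pool.Agent.Helper34.BN.hRCONJ
theorem bRRED : StRRED := Pool.Agent.Helper37.BN.hRRED bRCONJ bRINV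
theorem bRPRE : StRPRE := Pool.Agent.Helper70.BN.hRPRE bRINV bRRED
theorem bRTWO : StRTWO := Pool.Agent.Helper61.BN.hRTWO
theorem bRSTR : StRSTR := Pool.Agent.Helper57.BN.hRSTR bRINV bRPRE bRTWO
theorem bRLONG : StRLONG := Pool.Agent.Helper95.BN.hRLONG bRINV bRRED
theorem bYB3 : StYB3 := Pool.Agent.Helper35.BN.hYB3
theorem bYB4 : StYB4 := Pool.Agent.Helper55.BN.hYB4
theorem bRYB : StRYB := Pool.Agent.Helper88.BN.hRYB bRTWO bYB3 bYB4
theorem bRMAT : StRMAT := Pool.Agent.Helper94.BN.hRMAT bRRED bRSTR bRTWO bRYB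
theorem bRLAD : StRLAD := Pool.Agent.Helper36.BN.hRLAD bRLONG bRMAT
theorem bRSWP : StRSWP := Pool.Agent.Helper7.BN.hRSWP
theorem bLADU : StLADU := Pool.Agent.Helper44.BN.hLADU bRLAD bRSWP
theorem bBAVG : StBAVG := Pool.Agent.Helper99.BN.hBAVG
theorem bBQUAD : StBQUAD := Pool.Agent.Helper27.BN.hBQUAD bBAVG
theorem bBBRD : StBBRD := Pool.Agent.Helper71.BN.hBBRD bBAVG
theorem bBHEC : StBHEC := Pool.Agent.Helper15.BN.hBHEC bBAVG bBQUAD bBBRD
theorem bBSTP (hAVG : StAVG) : StBSTP := Pool.Agent.Helper70.BN.hBSTP hAVG bBAVG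
theorem bBFOL : StBFOL := Pool.Agent.Helper87.BN.hBFOL
theorem bBTOR (hAVG : StAVG) : StBTOR := Pool.Agent.Helper42.BN.hBTOR hAVG bBAVG
theorem bBINV : StBINV := Pool.Agent.Helper2.BN.hBINV bBAVG
theorem bBCST : StBCST := Pool.Agent.Helper40.BN.hBCST
theorem bNBRU : StNBRU := Pool.Agent.Helper45.BN.hNBRU
theorem bNPRD : StNPRD := Pool.Agent.Helper36.BN.hNPRD bNBRU
theorem bNGEO : StNGEO := Pool.Agent.Helper22.BN.hNGEO bNBRU bNPRD
theorem bNCRY : StNCRY := Pool.Agent.Helper71.BN.hNCRY bRRED bRTWO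
theorem bNDIH : StNDIH := Pool.Agent.Helper10.BN.hNDIH
theorem bNSTD : StNSTD := Pool.Agent.Helper55.BN.hNSTD bNPRD bNGEO bNCRY bNDIH

theorem bLIE (hLIEP : StLIEP) : StLIE :=
  hLIEP bLADU qAVG bBAVG bBHEC (bBSTP qAVG) bBFOL (bBTOR qAVG) bBINV bBCST

theorem bLIET (hLIEP : StLIEP) : ∀ (a : ℕ) (Q : Type) [Group Q] [Finite Q], LieT a Q →
    ∃ k : ℕ, Mix Q k ∧ 2 ^ k ≤ Nat.card Q ^ (12 * a + 1) :=
  fun a Q _ _ h => bLIE hLIEP a Q (bNSTD a Q h)

end Pool.Agent.Helper84.SPN
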