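import Pool.Agent.Helper75.MX.Defs

/-!
# MP_a2f62e_al: the class `Fam M` of simple groups

Definitions only. `Fam M` contains the alternating groups, the groups `PSL_n(F)`, the simple groups of even order at most `M`, and the
simple groups all of whose perfect central extensions with centre of odd order are quotients `Sp_{2n}(F)/N`, `|N| ≤ 2`, or have a BN
pair as described in `LieT`.
-/

set_option autoImplicit false

namespace Pool.Agent.Helper84.SPN.Cl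

/-- `S` is not commutative -/
def NonComm (S : Type) [Group S] : Prop := ¬ ∀ a b : S, a * b = b * a

/-- `S` is an alternating group `A_m`, `m ≥ 5`, or `PSL_n(F) = SL_n(F)/Z(SL_n(F))`, `n ≥ 2`, `F` a finite field -/
def AltPSL (S : Type) [Group S] : Prop :=
  (∃ m : ℕ, 5 ≤ m ∧ Nonempty (S ≃* alternatingGroup (Fin m))) ∨
  ∃ (n : ℕ) (F : Type) (_ : Field F) (_ : Finite F), 2 ≤ n ∧
    Nonempty (S ≃* (Matrix.SpecialLinearGroup (Fin n) F ⧸
      Subgroup.center (Matrix.SpecialLinearGroup (Fin n) F)))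

/-- the symplectic group `Sp_{2n}(F)` (Mathlib's group of symplectic matrices) -/
def SpM (n : ℕ) (F : Type) [Field F] : Type := Matrix.symplecticGroup (Fin n) F

instance instGroupSpM (n : ℕ) (F : Type) [Field F] : Group (SpM n F) :=
  inferInstanceAs (Group (Matrix.symplecticGroup (Fin n) F))

/-- `Q` is a quotient `Sp_{2n}(F)/N`, `n ≥ 2`, `F` a finite field, `N` normal with `|N| ≤ 2` -/
def SpQ (Q : Type) [Group Q] : Prop :=
  ∃ (n : ℕ) (F : Type) (_ : Field F) (_ : Finite F) (N : Subgroup (SpM n F)) (_ : N.Normal),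
    2 ≤ n ∧ Nat.card N ≤ 2 ∧ Nonempty (Q ≃* (SpM n F ⧸ N))

/-- `x` is in the double coset `B w B` -/
def DC {G : Type} [Group G] (B : Subgroup G) (w x : G) : Prop := ∃ b ∈ B, ∃ b' ∈ B, x = b * w * b'

/-- `K` is solvable and has no nontrivial quotient of odd order -/
def STS (K : Type) [Group K] : Prop :=
  Group.IsSolvable K ∧ ∀ N : Subgroup K, N.Normal → Odd N.index → N = ⊤

/-- `(B, N)` is a BN pair (Tits system) of `Q`: `B` and `N` generate `Q`, `T = B ∩ N` is normal in `N`, the `n_i` and `T`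
generate `N`, `n_i² ∈ T`, `n_i B w ⊆ B w B ∪ B n_i w B` for `w ∈ N`, and the parameter `q_i = |B : B ∩ n_i B n_i⁻¹|` is at least `2` -/
structure BNpair {Q : Type} [Group Q] {l : ℕ} (B N : Subgroup Q) (n : Fin l → Q) (q : Fin l → ℕ) : Prop where
  gen : B ⊔ N = ⊤
  norm : ∀ x ∈ N, ∀ t ∈ B, t ∈ N → x * t * x⁻¹ ∈ B
  mem : ∀ i, n i ∈ N
  genN : Subgroup.closure (((B ⊓ N : Subgroup Q) : Set Q) ∪ Set.range n) = N
  sq : ∀ i, n i * n i ∈ B
  ax : ∀ i, ∀ b ∈ B, ∀ w ∈ N, DC B w (n i * b * w) ∨ DC B (n i * w) (n i * b * w)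
  par : ∀ i, 2 ≤ q i ∧ q i * Nat.card {b : B // (n i)⁻¹ * b * n i ∈ B} = Nat.card B

/-- the simple root `α_i` of the root lattice `ℤ^l` -/
def al {l : ℕ} (i : Fin l) : Fin l → ℤ := Pi.single i 1

/-- the simple reflection `s_i` of `ℤ^l` with the Cartan matrix `A`: `s_i v = v - (∑_j v_j A_{ji}) α_i` -/
def sr {l : ℕ} (A : Fin l → Fin l → ℤ) (i : Fin l) (v : Fin l → ℤ) : Fin l → ℤ :=
  v - (∑ j, v j * A j i) • (Pi.single i 1 : Fin l → ℤ)

/-- the product of the simple reflections of a word, applied to `v` -/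
def wa {l : ℕ} (A : Fin l → Fin l → ℤ) : List (Fin l) → (Fin l → ℤ) → (Fin l → ℤ)
  | [], v => v
  | i :: w, v => sr A i (wa A w v)

/-- `A` is a Cartan matrix without triple bonds, symmetrised by `d`, with the finite reduced root system `Φ` -/
structure RS {l : ℕ} (A : Fin l → Fin l → ℤ) (d : Fin l → ℤ) (Φ : Finset (Fin l → ℤ)) : Prop where
  diag : ∀ i, A i i = 2
  off : ∀ i j, i ≠ j → (A i j = 0 ∧ A j i = 0) ∨ (A i j = -1 ∧ A j i = -1) ∨ (A i j = -1 ∧ A j i = -2) ∨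
    (A i j = -2 ∧ A j i = -1)
  dpos : ∀ i, 0 < d i
  symm : ∀ i j, A i j * d j = A j i * d i
  ne : ∀ v ∈ Φ, v ≠ 0
  sign : ∀ v ∈ Φ, 0 ≤ v ∨ v ≤ 0
  stable : ∀ v ∈ Φ, ∀ i, sr A i v ∈ Φ
  simple : ∀ i, al i ∈ Φ
  reduced : ∀ (i : Fin l) (c : ℤ), c • (al i : Fin l → ℤ) ∈ Φ → c = 1 ∨ c = -1

/-- the Weyl group: either the `n_i` multiply modulo `B` exactly as the simple reflections of a finite crystallographic root
system without triple bonds, or the rank is two -/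
def Weyl {Q : Type} [Group Q] {l : ℕ} (B : Subgroup Q) (n : Fin l → Q) : Prop :=
  (∃ (A : Fin l → Fin l → ℤ) (d : Fin l → ℤ) (Φ : Finset (Fin l → ℤ)), RS A d Φ ∧
    ∀ w : List (Fin l), (w.map n).prod ∈ B ↔ ∀ v, wa A w v = v) ∨
  ∃ i j : Fin l, i ≠ j ∧ (∀ k, k = i ∨ k = j) ∧ n i * n j ∉ B

/-- `Q` has a BN pair with such a Weyl group, and (R) for every `i` there is `R ≤ B` with `STS R`, `|R| ≤ q_i ^ a` and
`B = R (B ∩ n_i B n_i⁻¹)`; (T) there are subgroups `L_j` with `STS L_j` and `A_j ≤ L_j` such that `A_j` normalises `L_i` for `i < j`,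
the `A_j` generate `B`, and `∏ |L_j| ≤ |Q| ^ a` -/
def LieT (a : ℕ) (Q : Type) [Group Q] : Prop :=
  ∃ (l : ℕ) (B N : Subgroup Q) (n : Fin l → Q) (q : Fin l → ℕ), BNpair B N n q ∧ Weyl B n ∧
    (∀ i, ∃ R : Subgroup Q, R ≤ B ∧ STS R ∧ Nat.card R ≤ q i ^ a ∧
      ∀ b ∈ B, ∃ r ∈ R, (n i)⁻¹ * (r⁻¹ * b) * n i ∈ B) ∧
    ∃ (k : ℕ) (L A : Fin k → Subgroup Q), (∀ j, STS (L j) ∧ A j ≤ L j) ∧
      (∀ i j, i < j → ∀ x ∈ A j, ∀ y ∈ L i, x * y * x⁻¹ ∈ L i) ∧ (⨆ j, A j) = B ∧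
      ∏ j, Nat.card (L j) ≤ Nat.card Q ^ a

/-- The class of simple groups: `S` is alternating or `PSL_n(F)`, or has even order at most `M`, or (`M > 0` and) every finite perfect
group `Q` with centre of odd order and `Q/Z(Q) ≅ S` is a quotient `Sp_{2n}(F)/N`, `|N| ≤ 2`, or belongs to `LieT M` -/
def Fam (M : ℕ) (S : Type) [Group S] : Prop :=
  AltPSL S ∨ (Even (Nat.card S) ∧ Nat.card S ≤ M) ∨
  (0 < M ∧ ∀ (Q : Type) [Group Q] [Finite Q], commutator Q = ⊤ →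
    Odd (Nat.card (Subgroup.center Q)) → Nonempty ((Q ⧸ Subgroup.center Q) ≃* S) → SpQ Q ∨ LieT M Q)

end Pool.Agent.Helper84.SPN.Cl
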