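import Pool.Agent.Helper84.SPN.Final
import Pool.Agent.Helper84.SPN.Class

/-!
# MP_a2f62e_al: the final theorem for the class `Cl.Fam`
-/

set_option autoImplicit false

namespace Pool.Agent.Helper84.SPN

open Pool.Agent.Helper75.MX

theorem bn_conv {Q : Type} [Group Q] {l : ℕ} {B N : Subgroup Q} {n : Fin l → Q} {q : Fin l → ℕ}
    (h : Cl.BNpair B N n q) : Pool.Agent.Helper70.BN.BNpair B N n q :=
  ⟨h.gen, h.norm, h.mem, h.genN, h.sq, h.ax, h.par⟩

theorem sr_conv {l : ℕ} (A : Fin l → Fin l → ℤ) (i : Fin l) (v : Fin l → ℤ) :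
    Cl.sr A i v = Pool.Agent.Helper70.BN.sr A i v := rfl

theorem wa_conv {l : ℕ} (A : Fin l → Fin l → ℤ) (w : List (Fin l)) (v : Fin l → ℤ) :
    Cl.wa A w v = Pool.Agent.Helper70.BN.wa A w v := by
  induction w with
  | nil => rfl
  | cons i w ih =>
    show Cl.sr A i (Cl.wa A w v) = Pool.Agent.Helper70.BN.sr A i (Pool.Agent.Helper70.BN.wa A w v)
    rw [ih, sr_conv]

theorem rs_conv {l : ℕ} {A : Fin l → Fin l → ℤ} {d : Fin l → ℤ} {Φ : Finset (Fin l → ℤ)}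
    (h : Cl.RS A d Φ) : Pool.Agent.Helper70.BN.RS A d Φ :=
  ⟨h.diag, h.off, h.dpos, h.symm, h.ne, h.sign, h.stable, h.simple, h.reduced⟩

theorem weyl_conv {Q : Type} [Group Q] {l : ℕ} {B : Subgroup Q} {n : Fin l → Q}
    (h : Cl.Weyl B n) : Pool.Agent.Helper70.BN.Weyl B n := by
  rcases h with ⟨A, d, Φ, hRS, hw⟩ | h
  · refine Or.inl ⟨A, d, Φ, rs_conv hRS, fun w => (hw w).trans ?_⟩
    simp only [wa_conv]
  · exact Or.inr h

theorem lieT_conv {a : ℕ} {Q : Type} [Group Q] (h : Cl.LieT a Q) :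
    Pool.Agent.Helper70.BN.LieT a Q := by
  obtain ⟨l, B, N, n, q, h1, h2, h3, h4⟩ := h
  exact ⟨l, B, N, n, q, bn_conv h1, weyl_conv h2, h3, h4⟩

theorem fam_conv {M : ℕ} {S : Type} [Group S] (h : Cl.Fam M S) : Fam M S := by
  rcases h with h | h | ⟨h0, h⟩
  · exact Or.inl h
  · exact Or.inr (Or.inl h)
  · refine Or.inr (Or.inr ⟨h0, ?_⟩)
    intro Q _ _ h1 h2 h3
    rcases h Q h1 h2 h3 with h4 | h4
    · exact Or.inl h4
    · exact Or.inr (lieT_conv h4)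

/-- **All known simple groups as composition factors.** -/
theorem final_cl : ∃ C : ℕ → ℝ, C 0 = 6 ∧ ∀ (M : ℕ) (G : Type) [Group G] [Finite G],
    (∀ H : Subgroup G, H.IsSubnormal → ∀ (N : Subgroup H) [N.Normal],
      IsSimpleGroup (H ⧸ N) → Cl.NonComm (H ⧸ N) → Cl.Fam M (H ⧸ N)) →
    Mixable G → (mixlen G : ℝ) ≤ C M * Real.logb 2 (Nat.card G) := by
  obtain ⟨C, hC, h⟩ := final_all
  refine ⟨C, hC, ?_⟩
  intro M G _ _ hG hm
  exact h M G (fun H hH N _ hs hn => fam_conv (hG H hH N hs hn)) hm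

end Pool.Agent.Helper84.SPN
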