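import Pool.Agent.Helper84.SPN.Sp2
import Pool.Agent.Helper84.SPN.Asm2
import Pool.Agent.Helper84.SPN.BNAll
import Pool.Agent.Helper57.BN.M_LIEP

/-!
# MP_a2f62e_al: the final theorem
-/

set_option autoImplicit false

namespace Pool.Agent.Helper84.SPN

open Pool.Agent.Helper75.MX Pool.Agent.Helper70.ML Pool.Agent.Helper70.BN

/-- groups with a BN pair, class `LieT` -/
theorem lieT (a : ℕ) (Q : Type) [Group Q] [Finite Q] (h : LieT a Q) :
    ∃ k : ℕ, Mix Q k ∧ 2 ^ k ≤ Nat.card Q ^ (12 * a + 1) :=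
  bLIET Pool.Agent.Helper57.BN.hLIEP a Q h

/-- **All known simple groups as composition factors.** -/
theorem final_all : ∃ C : ℕ → ℝ, C 0 = 6 ∧ ∀ (M : ℕ) (G : Type) [Group G] [Finite G],
    (∀ H : Subgroup G, H.IsSubnormal → ∀ (N : Subgroup H) [N.Normal],
      IsSimpleGroup (H ⧸ N) → (¬ ∀ a b : H ⧸ N, a * b = b * a) → Fam M (H ⧸ N)) →
    Mixable G → (mixlen G : ℝ) ≤ C M * Real.logb 2 (Nat.card G) :=
  asm spFinal2 (fun a Q _ _ h => lieT a Q h)

end Pool.Agent.Helper84.SPN
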