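import Pool.Agent.Helper84.SPN.Step

/-!
# Project SPN: the mixing length of `Sp_{2n}(F)` and of its quotients by subgroups of order at most two
-/

set_option autoImplicit false

namespace Pool.Agent.Helper84.SPN

open Pool.Agent.Helper75.MX Pool.Agent.Helper70.ML Pool.Agent.Helper84.MXP Pool.Agent.Helper84.MXQ

/-- symplectic groups -/
theorem spAll (hEMB : StEMB) (hRRR : StRRR) (hDEC : StDEC) (hLFI : StLFI) (hRES : StRES)
    (hORD : StORD) (hPRD : StPRD) (hSP1 : StSP1) (hTS3 : StTS3) : ∃ C : ℝ, 6 ≤ C ∧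
    ∀ (n : ℕ) (F : Type) [Field F] [Finite F], 2 ≤ n → Good C (SpG n F) := by
  obtain ⟨L, hL⟩ := exists_L (80 * (27 * (8 * (3 * 1))))
  refine ⟨max 10 L, le_max_of_le_left (by norm_num), ?_⟩
  have hstep := step hEMB hRRR hDEC hLFI hRES hORD hPRD
  have hC : (10 : ℝ) ≤ max 10 (L : ℝ) := le_max_left _ _
  have key : ∀ (F : Type) [Field F] [Finite F] (m : ℕ), 1 ≤ m → Good (max 10 (L : ℝ)) (SpG m F) →
      Good (max 10 (L : ℝ)) (SpG (m + 1) F) := by
    intro F _ _ m hm ⟨k, hk, hkb⟩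
    obtain ⟨k', hk', hb⟩ := hstep m hm F k hk
    refine ⟨k', hk', hb.trans ?_⟩
    have h1 : Real.logb 2 (Nat.card (SpG m F)) ≤ Real.logb 2 (Nat.card (SpG (m + 1) F)) := by
      apply Real.logb_le_logb_of_le (by norm_num) (by exact_mod_cast Nat.card_pos)
      have hq : 2 ≤ Nat.card F := Finite.one_lt_card
      have h2 : 1 ≤ Nat.card F ^ (2 * m + 2) - 1 := by
        have : 2 ^ 1 ≤ Nat.card F ^ (2 * m + 2) :=
          (Nat.pow_le_pow_left hq 1).trans (Nat.pow_le_pow_right (by omega) (by omega))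
        omega
      have h3 : 1 ≤ Nat.card F ^ (2 * m + 1) := Nat.one_le_pow _ _ (by omega)
      have h4 : Nat.card (SpG m F) ≤ Nat.card (SpG (m + 1) F) := by
        rw [hORD]
        calc Nat.card (SpG m F) = 1 * (1 * Nat.card (SpG m F)) := by ring
          _ ≤ _ := Nat.mul_le_mul h2 (Nat.mul_le_mul h3 le_rfl)
      exact_mod_cast h4
    nlinarith
  intro n F _ _ hn
  by_cases h3 : Nat.card F = 3
  · induction n, hn using Nat.le_induction with
    | base =>
      have hc0 : Nat.card (SpG 0 F) = 1 := by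
        have : Subsingleton (SpG 0 F) := ⟨fun a b => Subtype.ext (LinearEquiv.ext fun v =>
          Subsingleton.elim _ _)⟩
        exact Nat.card_unique
      have hc : Nat.card (SpG 2 F) = 80 * (27 * (8 * (3 * 1))) := by
        have h1 := hORD 1 F
        have h0 := hORD 0 F
        rw [h3] at h1 h0
        rw [hc0] at h0
        have h0' : Nat.card (SpG 1 F) = 8 * (3 * 1) := h0
        rw [h0'] at h1
        exact h1
      have := Fintype.ofFinite (SpG 2 F)
      obtain ⟨k, hk, hmix⟩ := hL (SpG 2 F) hc.le (mix_of_gen (gen_of_ts (hTS3 F h3)))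
      refine ⟨k, hmix, ?_⟩
      have h5 : (1 : ℝ) ≤ Real.logb 2 (Nat.card (SpG 2 F)) := by
        rw [Real.le_logb_iff_rpow_le (by norm_num) (by exact_mod_cast Nat.card_pos), Real.rpow_one,
          hc]
        norm_num
      have h6 : (k : ℝ) ≤ max 10 (L : ℝ) := le_max_of_le_right (by exact_mod_cast hk)
      nlinarith
    | succ m hm ih => exact key F m (by omega) ih
  · have hall : ∀ m, 1 ≤ m → Good (max 10 (L : ℝ)) (SpG m F) := by
      intro m hm
      induction m, hm using Nat.le_induction with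
      | base => exact good_mono (by linarith) (hSP1 F h3)
      | succ m hm ih => exact key F m hm ih
    exact hall n (by omega)

/-- quotients by normal subgroups of order at most two -/
theorem spQuot (hEMB : StEMB) (hRRR : StRRR) (hDEC : StDEC) (hLFI : StLFI) (hRES : StRES)
    (hORD : StORD) (hPRD : StPRD) (hSP1 : StSP1) (hTS3 : StTS3) : ∃ C : ℝ, 6 ≤ C ∧
    ∀ (n : ℕ) (F : Type) [Field F] [Finite F] (N : Subgroup (SpG n F)) [N.Normal], 2 ≤ n →
      Nat.card N ≤ 2 → Good C (SpG n F ⧸ N) := by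
  obtain ⟨C, hC, h⟩ := spAll hEMB hRRR hDEC hLFI hRES hORD hPRD hSP1 hTS3
  refine ⟨2 * C, by linarith, ?_⟩
  intro n F _ _ N _ hn hN
  obtain ⟨k, hk, hb⟩ := h n F hn
  refine ⟨k, qQUO _ N k hk, hb.trans ?_⟩
  have h1 : Nat.card (SpG n F) = Nat.card (SpG n F ⧸ N) * Nat.card N := card_quot N
  have h4 : 4 ≤ Nat.card (SpG n F) := by
    obtain ⟨m, rfl⟩ : ∃ m, n = m + 1 := ⟨n - 1, by omega⟩
    rw [hORD]
    have hq : 2 ≤ Nat.card F := Finite.one_lt_card
    have h2 : 1 ≤ Nat.card F ^ (2 * m + 2) - 1 := by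
      have : 2 ^ 1 ≤ Nat.card F ^ (2 * m + 2) :=
        (Nat.pow_le_pow_left hq 1).trans (Nat.pow_le_pow_right (by omega) (by omega))
      omega
    have h3 : 4 ≤ Nat.card F ^ (2 * m + 1) :=
      calc 4 = 2 ^ 2 := by norm_num
        _ ≤ Nat.card F ^ 2 := Nat.pow_le_pow_left hq 2
        _ ≤ _ := Nat.pow_le_pow_right (by omega) (by omega)
    calc 4 = 1 * (4 * 1) := by norm_num
      _ ≤ _ := Nat.mul_le_mul h2 (Nat.mul_le_mul h3 Nat.card_pos)
  have h2 : 2 ≤ Nat.card (SpG n F ⧸ N) := by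
    by_contra hlt
    have h5 : Nat.card (SpG n F ⧸ N) * Nat.card N ≤ 1 * 2 := Nat.mul_le_mul (by omega) hN
    omega
  have hQ0 : (0 : ℝ) < Nat.card (SpG n F ⧸ N) := by positivity
  have hN0 : (0 : ℝ) < Nat.card N := by exact_mod_cast Nat.card_pos
  have h6 : Real.logb 2 (Nat.card (SpG n F)) ≤ Real.logb 2 (Nat.card (SpG n F ⧸ N)) + 1 := by
    rw [h1]
    push_cast
    rw [Real.logb_mul hQ0.ne' hN0.ne']
    have : Real.logb 2 (Nat.card N) ≤ 1 := by
      rw [Real.logb_le_iff_le_rpow (by norm_num) hN0, Real.rpow_one]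
      exact_mod_cast hN
    linarith
  have h7 : (1 : ℝ) ≤ Real.logb 2 (Nat.card (SpG n F ⧸ N)) := by
    rw [Real.le_logb_iff_rpow_le (by norm_num) hQ0, Real.rpow_one]
    exact_mod_cast h2
  nlinarith

end Pool.Agent.Helper84.SPN
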