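import Pool.Agent.Helper84.SPN.St

/-!
# The symplectic group of Mathlib
-/

set_option autoImplicit false

namespace Pool.Agent.Helper84.SPN

open Matrix

variable {n : ℕ} {F : Type} [Field F]

/-- coordinates -/
def EE (v : VV n F) : Fin n ⊕ Fin n → F := Sum.elim v.1 v.2

/-- inverse coordinates -/
def EI (x : Fin n ⊕ Fin n → F) : VV n F := (fun i => x (Sum.inl i), fun i => x (Sum.inr i))

theorem EI_EE (v : VV n F) : EI (EE v) = v := rfl

theorem EE_EI (x : Fin n ⊕ Fin n → F) : EE (EI x) = x := by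
  funext i
  rcases i with i | i <;> rfl

theorem EE_add (v w : VV n F) : EE (v + w) = EE v + EE w := by
  funext i
  rcases i with i | i <;> rfl

theorem EE_smul (c : F) (v : VV n F) : EE (c • v) = c • EE v := by
  funext i
  rcases i with i | i <;> rfl

theorem EI_add (v w : Fin n ⊕ Fin n → F) : EI (v + w) = EI v + EI w := rfl

theorem EI_smul (c : F) (v : Fin n ⊕ Fin n → F) : EI (c • v) = c • EI v := rfl

theorem om_eq (v w : VV n F) : om v w = -(EE v ⬝ᵥ (J (Fin n) F *ᵥ EE w)) := by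
  unfold om J EE
  rw [Matrix.fromBlocks_mulVec]
  simp only [dotProduct, Fintype.sum_sum_type, Sum.elim_inl, Sum.elim_inr, Matrix.zero_mulVec,
    Matrix.neg_mulVec, Matrix.one_mulVec, Pi.add_apply, Pi.neg_apply, Pi.zero_apply,
    Function.comp_apply, zero_add, add_zero, mul_neg, Finset.sum_neg_distrib,
    Finset.sum_sub_distrib]
  ring

/-- the linear automorphism of a symplectic matrix -/
def toL (A : symplecticGroup (Fin n) F) : VV n F ≃ₗ[F] VV n F where
  toFun v := EI (A.1 *ᵥ EE v)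
  invFun v := EI ((A⁻¹).1 *ᵥ EE v)
  map_add' v w := by rw [EE_add, Matrix.mulVec_add, EI_add]
  map_smul' c v := by rw [EE_smul, Matrix.mulVec_smul, EI_smul]; rfl
  left_inv v := by
    have h : (A⁻¹).1 * A.1 = 1 := congrArg Subtype.val (inv_mul_cancel A)
    show EI ((A⁻¹).1 *ᵥ EE (EI (A.1 *ᵥ EE v))) = v
    rw [EE_EI, Matrix.mulVec_mulVec, h, Matrix.one_mulVec, EI_EE]
  right_inv v := by
    have h : A.1 * (A⁻¹).1 = 1 := congrArg Subtype.val (mul_inv_cancel A)
    show EI (A.1 *ᵥ EE (EI ((A⁻¹).1 *ᵥ EE v))) = v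
    rw [EE_EI, Matrix.mulVec_mulVec, h, Matrix.one_mulVec, EI_EE]

theorem toL_apply (A : symplecticGroup (Fin n) F) (v : VV n F) : toL A v = EI (A.1 *ᵥ EE v) := rfl

theorem toL_mem (A : symplecticGroup (Fin n) F) : toL A ∈ SpG n F := by
  intro v w
  have h := SymplecticGroup.mem_iff'.1 A.2
  rw [om_eq, om_eq, toL_apply, toL_apply, EE_EI, EE_EI, ← Matrix.vecMul_transpose A.1 (EE v),
    ← Matrix.dotProduct_mulVec, Matrix.mulVec_mulVec, Matrix.mulVec_mulVec, h]

/-- the homomorphism -/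
def toS : symplecticGroup (Fin n) F →* SpG n F where
  toFun A := ⟨toL A, toL_mem A⟩
  map_one' := by
    apply Subtype.ext
    apply LinearEquiv.ext
    intro v
    show EI ((1 : symplecticGroup (Fin n) F).1 *ᵥ EE v) = v
    rw [show (1 : symplecticGroup (Fin n) F).1 = 1 from rfl, Matrix.one_mulVec, EI_EE]
  map_mul' A B := by
    apply Subtype.ext
    apply LinearEquiv.ext
    intro v
    show EI ((A * B).1 *ᵥ EE v) = EI (A.1 *ᵥ EE (EI (B.1 *ᵥ EE v)))
    rw [EE_EI, Matrix.mulVec_mulVec]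
    rfl

theorem toS_inj : Function.Injective (toS : symplecticGroup (Fin n) F →* SpG n F) := by
  intro A B h
  apply Subtype.ext
  have h1 : ∀ x : Fin n ⊕ Fin n → F, A.1 *ᵥ x = B.1 *ᵥ x := by
    intro x
    have h2 : toL A (EI x) = toL B (EI x) := by
      have := congrArg (fun g : SpG n F => g.1 (EI x)) h
      exact this
    rw [toL_apply, toL_apply, EE_EI] at h2
    have := congrArg EE h2
    rwa [EE_EI, EE_EI] at this
  exact Matrix.ext_of_mulVec_single (fun i => h1 (Pi.single i 1))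

theorem toS_surj : Function.Surjective (toS : symplecticGroup (Fin n) F →* SpG n F) := by
  intro g
  let Lm : (Fin n ⊕ Fin n → F) →ₗ[F] (Fin n ⊕ Fin n → F) :=
    { toFun := fun x => EE (g.1 (EI x))
      map_add' := fun x y => by rw [EI_add, map_add, EE_add]
      map_smul' := fun c x => by rw [EI_smul, map_smul, EE_smul]; rfl }
  let M := LinearMap.toMatrix' Lm
  have hM : ∀ x, M *ᵥ x = EE (g.1 (EI x)) := fun x => by
    rw [← Matrix.toLin'_apply, Matrix.toLin'_toMatrix']
    rfl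
  have hmem : M ∈ symplecticGroup (Fin n) F := by
    rw [SymplecticGroup.mem_iff']
    have key : ∀ x y : Fin n ⊕ Fin n → F,
        x ⬝ᵥ ((Mᵀ * J (Fin n) F * M) *ᵥ y) = x ⬝ᵥ (J (Fin n) F *ᵥ y) := by
      intro x y
      have h1 := g.2 (EI x) (EI y)
      rw [om_eq, om_eq, EE_EI, EE_EI, ← hM, ← hM] at h1
      have h2 : x ⬝ᵥ ((Mᵀ * J (Fin n) F * M) *ᵥ y) = (M *ᵥ x) ⬝ᵥ (J (Fin n) F *ᵥ (M *ᵥ y)) := by
        rw [← Matrix.vecMul_transpose M x, ← Matrix.dotProduct_mulVec, Matrix.mulVec_mulVec,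
          Matrix.mulVec_mulVec, Matrix.mul_assoc]
      rw [h2]
      exact neg_inj.1 h1
    ext i j
    have h3 := key (Pi.single i 1) (Pi.single j 1)
    rw [Matrix.mulVec_single_one, Matrix.mulVec_single_one, single_one_dotProduct,
      single_one_dotProduct] at h3
    exact h3
  refine ⟨⟨M, hmem⟩, ?_⟩
  apply Subtype.ext
  apply LinearEquiv.ext
  intro v
  show EI (M *ᵥ EE v) = g.1 v
  rw [hM, EI_EE, EI_EE]

/-- `Sp_{2n}(F)` of Mathlib -/
theorem spIso (n : ℕ) (F : Type) [Field F] : Nonempty (symplecticGroup (Fin n) F ≃* SpG n F) :=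
  ⟨MulEquiv.ofBijective toS ⟨toS_inj, toS_surj⟩⟩

end Pool.Agent.Helper84.SPN
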