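import Pool.Agent.Helper84.SPN.Ind
import Pool.Agent.Helper98.SPN.M_EMB
import Pool.Agent.Helper62.SPN.M_RRR
import Pool.Agent.Helper10.SPN.M_DEC
import Pool.Agent.Helper20.SPN.M_LFI
import Pool.Agent.Helper43.SPN.M_RES
import Pool.Agent.Helper36.SPN.M_ORD
import Pool.Agent.Helper16.SPN.M_PRD
import Pool.Agent.Helper13.SPN.M_SP1
import Pool.Agent.Helper45.SPN.M_TS3

/-!
# Project SPN: symplectic groups, assembly
-/

set_option autoImplicit false

namespace Pool.Agent.Helper84.SPN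

open Pool.Agent.Helper70.ML

theorem pRRR : StRRR := Pool.Agent.Helper62.SPN.hRRR
theorem pEMB : StEMB := Pool.Agent.Helper98.SPN.hEMB
theorem pDEC : StDEC := Pool.Agent.Helper10.SPN.hDEC pRRR
theorem pLFI : StLFI := Pool.Agent.Helper20.SPN.hLFI
theorem pRES : StRES := Pool.Agent.Helper43.SPN.hRES pRRR
theorem pORD : StORD := Pool.Agent.Helper36.SPN.hORD pEMB pRRR pLFI
theorem pPRD : StPRD := Pool.Agent.Helper16.SPN.hPRD
theorem pSP1 : StSP1 := Pool.Agent.Helper13.SPN.hSP1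
theorem pTS3 : StTS3 := Pool.Agent.Helper45.SPN.hTS3 pEMB pRRR pDEC pRES pLFI pORD

/-- quotients of symplectic groups -/
theorem spFinal : ∃ C : ℝ, 6 ≤ C ∧
    ∀ (n : ℕ) (F : Type) [Field F] [Finite F] (N : Subgroup (SpG n F)) [N.Normal], 2 ≤ n →
      Nat.card N ≤ 2 → Good C (SpG n F ⧸ N) :=
  spQuot pEMB pRRR pDEC pLFI pRES pORD pPRD pSP1 pTS3

end Pool.Agent.Helper84.SPN
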