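import Pool.Agent.Helper84.SPN.Sp
import Pool.Agent.Helper84.SPN.IsoSp

/-!
# Project SPN: quotients of the symplectic groups of Mathlib
-/

set_option autoImplicit false

namespace Pool.Agent.Helper84.SPN

open Pool.Agent.Helper75.MX Pool.Agent.Helper70.ML

/-- quotients of symplectic groups by normal subgroups of order at most two -/
theorem spFinal2 : ∃ C : ℝ, 6 ≤ C ∧
    ∀ (n : ℕ) (F : Type) [Field F] [Finite F] (N : Subgroup (Matrix.symplecticGroup (Fin n) F))
      [N.Normal], 2 ≤ n → Nat.card N ≤ 2 → Good C (Matrix.symplecticGroup (Fin n) F ⧸ N) := by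
  obtain ⟨C, hC, h⟩ := spFinal
  refine ⟨C, hC, ?_⟩
  intro n F _ _ N hN hn hNc
  obtain ⟨e⟩ := spIso n F
  have hN' : (N.map e.toMonoidHom).Normal := hN.map _ e.surjective
  have hc : Nat.card (N.map e.toMonoidHom) = Nat.card N :=
    (Nat.card_congr (N.equivMapOfInjective e.toMonoidHom e.injective).toEquiv).symm
  have hG := h n F (N.map e.toMonoidHom) hn (by rw [hc]; exact hNc)
  exact (pISO _ _ ⟨(QuotientGroup.congr N (N.map e.toMonoidHom) e rfl).symm⟩).2.1 C hG

end Pool.Agent.Helper84.SPN
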