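import Pool.Agent.Helper84.MXQ.Final

/-!
# Project SPN (MP_a2f62e_al): mixing length of the symplectic groups `Sp_{2n}(F)`

THEOREM.  There is `C` with `mixlen (Sp_{2n}(F)/N) ≤ C log₂ |Sp_{2n}(F)/N|` for all `n ≥ 2`, all finite fields `F` and all normal `N` with `|N| ≤ 2`.

Idea.  `e_A` = averaging over the subgroup `A`.  `G = Sp_{2n}(F)`, `n = m+1`; `K` the field with `|F|^n` elements; `SL_2(K)` acts on `K² ≅ F^{2n}` and preserves the
form `Tr(x₁ y₂ - x₂ y₁)`, which is the standard form in the coordinates given by a basis of `K` and the trace dual basis.  It is transitive on the nonzero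
vectors, so `G = X Ge`, `X` = image of `SL_2(K)`, `Ge` = stabiliser of `e₀`, and `e_G = e_X e_{Ge}`; `Ge = Re Lf`, `Re` = elements of `Ge` which act as `± 1` on
`e₀^⊥ / e₀` (solvable, no nontrivial quotient of odd order, order `≤ 2 q^{2m+1}`), `Lf` = stabiliser of `e₀, f₀`, isomorphic to `Sp_{2m}(F)`.  So
`c(Sp_{2m+2}) ≤ c(SL_2(K)) + c(Re) + c(Sp_{2m})`.

Tools: `Pool/Agent/Helper75/MX` (`L`, `lz`, `app`, `Ok`, `Reach`, `dlt`, `uni`, `Mix`, `TS`), `Pool/Agent/Helper84/MXP` (`avK`, `reach_avK`, `avK_left`, ... in Core.lean, Core2.lean;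
`slAll` in Core4.lean).  `Group.IsSolvable G` is Mathlib's solvability.
-/

set_option autoImplicit false

namespace Pool.Agent.Helper84.SPN

open Pool.Agent.Helper75.MX Pool.Agent.Helper70.ML

/-- the space `F^n × F^n` -/
abbrev VV (n : ℕ) (F : Type) : Type := (Fin n → F) × (Fin n → F)

/-- the standard alternating form on `F^n × F^n` -/
def om {n : ℕ} {F : Type} [Field F] (v w : VV n F) : F := ∑ i, (v.1 i * w.2 i - v.2 i * w.1 i)

/-- the symplectic group `Sp_{2n}(F)`: the linear automorphisms of `F^n × F^n` preserving the standard alternating form -/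
def SpG (n : ℕ) (F : Type) [Field F] : Subgroup (VV n F ≃ₗ[F] VV n F) where
  carrier := {g | ∀ v w, om (g v) (g w) = om v w}
  one_mem' := fun _ _ => rfl
  mul_mem' := by
    intro g h hg hh v w
    rw [LinearEquiv.mul_apply, LinearEquiv.mul_apply, hg, hh]
  inv_mem' := by
    intro g hg v w
    have h1 : ∀ x, g (g⁻¹ x) = x := fun x => LinearEquiv.apply_symm_apply g x
    rw [← hg (g⁻¹ v) (g⁻¹ w), h1, h1]

/-- the basis vector `e₀` -/
def e0 (m : ℕ) (F : Type) [Field F] : VV (m + 1) F := (Pi.single 0 1, 0)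

/-- the basis vector `f₀`, `om e₀ f₀ = 1` -/
def f0 (m : ℕ) (F : Type) [Field F] : VV (m + 1) F := (0, Pi.single 0 1)

/-- the stabiliser of `e₀` -/
def Ge (m : ℕ) (F : Type) [Field F] : Subgroup (SpG (m + 1) F) where
  carrier := {g | g.1 (e0 m F) = e0 m F}
  one_mem' := rfl
  mul_mem' := by
    intro g h hg hh
    show g.1 (h.1 (e0 m F)) = e0 m F
    rw [show h.1 (e0 m F) = e0 m F from hh]
    exact hg
  inv_mem' := by
    intro g hg
    show g.1.symm (e0 m F) = e0 m F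
    rw [LinearEquiv.symm_apply_eq]
    exact (show g.1 (e0 m F) = e0 m F from hg).symm

/-- the stabiliser of `e₀` and `f₀` -/
def Lf (m : ℕ) (F : Type) [Field F] : Subgroup (SpG (m + 1) F) where
  carrier := {g | g.1 (e0 m F) = e0 m F ∧ g.1 (f0 m F) = f0 m F}
  one_mem' := ⟨rfl, rfl⟩
  mul_mem' := by
    rintro g h ⟨hg, hg'⟩ ⟨hh, hh'⟩
    refine ⟨?_, ?_⟩
    · show g.1 (h.1 (e0 m F)) = e0 m F
      rw [hh, hg]
    · show g.1 (h.1 (f0 m F)) = f0 m F
      rw [hh', hg']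
  inv_mem' := by
    rintro g ⟨hg, hg'⟩
    refine ⟨?_, ?_⟩
    · show g.1.symm (e0 m F) = e0 m F
      rw [LinearEquiv.symm_apply_eq]
      exact hg.symm
    · show g.1.symm (f0 m F) = f0 m F
      rw [LinearEquiv.symm_apply_eq]
      exact hg'.symm

/-- `g` fixes `e₀` and acts as `± 1` on `e₀^⊥ / e₀` -/
def IsR (m : ℕ) (F : Type) [Field F] (g : VV (m + 1) F ≃ₗ[F] VV (m + 1) F) : Prop :=
  g (e0 m F) = e0 m F ∧ ∃ ε : F, (ε = 1 ∨ ε = -1) ∧
    ∀ y : VV (m + 1) F, om (e0 m F) y = 0 → ∃ c : F, g y = ε • y + c • e0 m F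

/-- the elements which fix `e₀` and act as `± 1` on `e₀^⊥ / e₀` -/
def Re (m : ℕ) (F : Type) [Field F] : Subgroup (SpG (m + 1) F) where
  carrier := {g | IsR m F g.1}
  one_mem' := ⟨rfl, 1, Or.inl rfl, fun y _ => ⟨0, by simp⟩⟩
  mul_mem' := by
    rintro g h ⟨hg, ε, hε, hgy⟩ ⟨hh, δ, hδ, hhy⟩
    refine ⟨?_, ε * δ, ?_, ?_⟩
    · show g.1 (h.1 (e0 m F)) = e0 m F
      rw [hh, hg]
    · rcases hε with rfl | rfl <;> rcases hδ with rfl | rfl <;> simp
    · intro y hy
      obtain ⟨c, hc⟩ := hhy y hy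
      obtain ⟨d, hd⟩ := hgy y hy
      refine ⟨δ * d + c, ?_⟩
      show g.1 (h.1 y) = _
      rw [hc, map_add, map_smul, map_smul, hd, hg]
      module
  inv_mem' := by
    rintro g ⟨hg, ε, hε, hgy⟩
    have hεε : ε * ε = 1 := by rcases hε with rfl | rfl <;> simp
    refine ⟨?_, ε, hε, ?_⟩
    · show g.1.symm (e0 m F) = e0 m F
      rw [LinearEquiv.symm_apply_eq]
      exact hg.symm
    · intro y hy
      obtain ⟨c, hc⟩ := hgy y hy
      refine ⟨-(ε * c), ?_⟩
      show g.1.symm y = _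
      rw [LinearEquiv.symm_apply_eq, map_add, map_smul, map_smul, hc, hg, smul_add, smul_smul, hεε]
      module

/-- EMB.  `SL_2` of the extension of degree `n` in the symplectic group, transitive on the nonzero vectors.
PROOF.  `K = FiniteField.Extension F p n` (`Mathlib/FieldTheory/Finite/Extension.lean`: `natCard_extension`, `finrank_extension`; `p = ringChar F`, instances `CharP`, `Fact p.Prime`; `n ≠ 0`).
`b : Basis (Fin n) F K` (`Module.finBasisOfFinrankEq`), `b' = b.traceDual` (`Mathlib/RingTheory/Trace/Basic.lean`: `Module.Basis.trace_traceDual_mul`, `trace_mul_traceDual`).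
`Ψ : VV n F ≃ₗ[F] K × K`, `Ψ (a, c) = (∑ a_i b_i, ∑ c_i b'_i)` (`b.equivFun.symm`, `b'.equivFun.symm`, `LinearEquiv.prodCongr`).  `Tr (x₁ y₂ - x₂ y₁) = om v w` for `x = Ψ v`, `y = Ψ w`.
`g ∈ SL_2(K)` acts on `K × K` by `g (x₁, x₂) = (g₀₀ x₁ + g₀₁ x₂, g₁₀ x₁ + g₁₁ x₂)`, an `F`-linear automorphism (inverse: the action of `g⁻¹`) with `(gx)₁ (gy)₂ - (gx)₂ (gy)₁ = det g · (x₁ y₂ - x₂ y₁)`.
`φ g = Ψ⁻¹ g Ψ`.  Transitivity: it is enough to map `(1, 0)` to any `(a, c) ≠ 0`: matrix with first column `(a, c)` and second column `(0, a⁻¹)` if `a ≠ 0`, `(-c⁻¹, 0)` if `a = 0`. -/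
def StEMB : Prop := ∀ (n : ℕ) (F : Type) [Field F] [Finite F], 1 ≤ n →
  ∃ (K : Type) (_ : Field K) (_ : Finite K), Nat.card K = Nat.card F ^ n ∧
    ∃ φ : SLn 2 K →* SpG n F, ∀ v w : VV n F, v ≠ 0 → w ≠ 0 → ∃ x, (φ x).1 v = w

/-- RRR.  The elements `r_{u,c}` (`u ∈ e₀^⊥ ∩ f₀^⊥`): `r e₀ = e₀`, `r f₀ = f₀ + u + c e₀`, `r y = y + om u y • e₀` for `y ⊥ e₀, f₀`.
PROOF.  Put `A v = om e₀ v` and `B v = om v f₀` (so `v = B v • e₀ + A v • f₀ + v'`, `v' ⊥ e₀, f₀`; `om u v = om u v'` as `u ⊥ e₀, f₀`).  Define `r v = v + A v • (u + c • e₀) + om u v • e₀`.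
It is linear.  `om (r v) (r w) = om v w`: expand, use `om e₀ e₀ = 0`, `om u e₀ = 0`, `om u u = 0`, `om u w = - om w u`, `om e₀ w = A w`:
`om (v + A v u + (A v c + om u v) e₀) (w + A w u + (A w c + om u w) e₀) = om v w + A w om v u + (A w c + om u w) om v e₀ + A v om u w + (A v c + om u v) om e₀ w`, and `om v e₀ = - A v`, `om v u = - om u v`:
`= om v w - A w om u v - A v A w c - A v om u w + A v om u w + A v A w c + om u v A w = om v w`.  It is injective (a form preserving map of a nondegenerate space) or: the inverse is the same formula with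
`(-u, -c)`: `r_{u,c} r_{u',c'} = r_{u+u', c+c'+ om u u'}` (compute), `om u u = 0`.  `r` is in `Re` with `ε = 1`: for `y` with `A y = 0`: `r y = y + om u y e₀`.  `r f₀ = f₀ + u + c e₀` as `A f₀ = 1`, `om u f₀ = 0`. -/
def StRRR : Prop := ∀ (m : ℕ) (F : Type) [Field F], ∃ r : VV (m + 1) F → F → SpG (m + 1) F,
  ∀ (u : VV (m + 1) F) (c : F), om (e0 m F) u = 0 → om (f0 m F) u = 0 →
    r u c ∈ Re m F ∧
    (∀ v, (r u c).1 v = v + om (e0 m F) v • (u + c • e0 m F) + om u v • e0 m F) ∧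
    ∀ (u' : VV (m + 1) F) (c' : F), om (e0 m F) u' = 0 → om (f0 m F) u' = 0 →
      r u c * r u' c' = r (u + u') (c + c' + om u u')

/-- DEC.  `Ge = Re Lf`.  Uses `StRRR`.
PROOF.  `g e₀ = e₀`; `w = g f₀`, `om e₀ w = om (g e₀) (g f₀) = om e₀ f₀ = 1`.  `w = f₀ + u + c e₀` with `c = om w f₀` and `u = w - f₀ - c e₀`, `om e₀ u = 1 - 1 = 0`, `om f₀ u = om f₀ w - c om f₀ e₀ = - c + c = 0`.
`r = r_{u,c}`: `r f₀ = f₀ + u + c e₀ = w` and `l = r⁻¹ g` fixes `e₀` and `f₀`. -/
def StDEC : Prop := ∀ (m : ℕ) (F : Type) [Field F] (g : SpG (m + 1) F), g.1 (e0 m F) = e0 m F →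
  ∃ r ∈ Re m F, ∃ l ∈ Lf m F, g = r * l

/-- LFI.  The stabiliser of `e₀, f₀` is `Sp_{2m}(F)`.
PROOF.  `g ∈ Lf` maps `{v | om e₀ v = 0, om v f₀ = 0} = {v | v.2 0 = 0, v.1 0 = 0}` to itself; identify it with `VV m F` by `(a, c) ↦ (Fin.cons 0 a, Fin.cons 0 c)` (inverse: `(Fin.tail v.1, Fin.tail v.2)`).
`Lf → SpG m F`: `(g' v) = tail (g (cons 0 v))`; `om (cons 0 v) (cons 0 w) = om v w` (`Fin.sum_univ_succ`).  Inverse: `h ↦ (v ↦ (cons (v.1 0) (h (tail v)).1, cons (v.2 0) (h (tail v)).2))`.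
It may be easiest to use the linear equivalence `VV (m+1) F ≃ₗ (F × F) × VV m F`. -/
def StLFI : Prop := ∀ (m : ℕ) (F : Type) [Field F], Nonempty (Lf m F ≃* SpG m F)

/-- RES.  `Re` is solvable, its order is at most `2 |F|^{2m+1}`, and for `m ≥ 1` it has no nontrivial quotient of odd order.  Uses `StRRR`.
PROOF.  (0) Let `R₁` be the subgroup of the `g ∈ Re` with `g y - y ∈ F e₀` for all `y ⊥ e₀` (`ε = 1`).  Every `g ∈ R₁` is some `r_{u,c}`: by the proof of DEC `g = r_{u,c} l`, `l ∈ Lf ∩ R₁`; `l y = y + c(y) e₀` for `y ⊥ e₀`; and for `y ⊥ e₀, f₀`: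
`c(y) = om (l y) f₀ = om (l y) (l f₀) = om y f₀ = 0`; so `l` fixes `e₀`, `f₀` and all `y ⊥ e₀, f₀`, `l = 1`.  (1) the number of pairs `(u, c)` is `|F|^{2m} |F|` (`u` has `u.1 0 = u.2 0 = 0`).  `R₁` has index `≤ 2` in `Re`: two elements with `ε = -1`
differ by an element of `R₁` (or: a map `Re → R₁ × {±1}`, injective).  (2) Solvable: `R₁` is normal of index `≤ 2` in `Re`; `[r_{u,c}, r_{u',c'}] = r_{0, 2 om u u'}` and the `r_{0,c}` are central in `R₁` (multiplication rule of RRR), so the third derived group is trivial; e.g.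
`solvable_of_ker_le_range`, `Subgroup.isSolvable...`, or: `R₁ → VV (m+1) F` (additive, `Multiplicative`), `r_{u,c} ↦ u`, is a homomorphism with commutative kernel.
(3) `TS`: let `N` be normal of odd index in `Re`.  If `2 = 0` in `F`: `|Re|` is a power of two (`R₁` is all of `Re`, `|R₁| = |F|^{2m+1}` and `|F|` is a power of two: `FiniteField.card`), so the index is `1`.
If `2 ≠ 0`: let `h v = om v f₀ • e₀ + om e₀ v • f₀ - (v - om v f₀ • e₀ - om e₀ v • f₀)` (`+1` on `e₀, f₀`, `-1` on the rest): `h ∈ Re`, `h² = 1`, so `h ∈ N` (its image in the group `Re/N` of odd order has square one).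
`h r_{u,c} h⁻¹ = r_{-u,c}`.  So `N ∋ r_{u,0} (h r_{u,0} h⁻¹)⁻¹ = r_{u,0} (r_{-u,0})⁻¹ = r_{u,0} r_{u,0} = r_{2u,0}` for all `u`; as `2` is invertible all `r_{u,0} ∈ N`; `r_{u,0} r_{u',0} r_{-u-u',0} = r_{0, om u u'}`
(compute with RRR) gives all `r_{0,c} ∈ N` because `m ≥ 1` (`u = (Pi.single 1 1, 0)`, `u' = (0, Pi.single 1 c)`).  So `R₁ ≤ N`, and every element of `Re` is in `R₁ ∪ h R₁`.  So `N = ⊤`. -/
def StRES : Prop := ∀ (m : ℕ) (F : Type) [Field F] [Finite F],
  Group.IsSolvable (Re m F) ∧ Nat.card (Re m F) ≤ 2 * Nat.card F ^ (2 * m + 1) ∧ (1 ≤ m → TS (Re m F))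

/-- ORD.  The order of the symplectic group.  Uses `StEMB`, `StRRR`, `StLFI`.
PROOF.  Orbit-stabiliser twice (`MulAction.card_orbit_mul_card_stabilizer_eq_card_group`, or maps with fibres of constant size).  (1) `G = SpG (m+1) F` acts on the vectors; the orbit of `e₀` is the set of all nonzero vectors by EMB (`|F|^{2m+2} - 1` elements:
`Nat.card (VV (m+1) F) = |F|^{2(m+1)}`).  (2) `Ge` acts on `{w | om e₀ w = 1}`; the orbit of `f₀` is everything by RRR (as in the proof of DEC) and the stabiliser is `Lf ≅ SpG m F`; the set has `|F|^{2m+1}` elements (`om e₀ w = w.2 0`). -/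
def StORD : Prop := ∀ (m : ℕ) (F : Type) [Field F] [Finite F],
  Nat.card (SpG (m + 1) F) =
    (Nat.card F ^ (2 * m + 2) - 1) * (Nat.card F ^ (2 * m + 1) * Nat.card (SpG m F))

/-- PRD.  Averaging over a product of two subgroups which is the whole group.
PROOF.  `Helper84/MXP/Core.lean`: `avK K f` is the average of `f` over left translates by `K`; `reach_avK`: `Mix K k → Reach k f (avK K f)`.  From `dlt G` go to `avK B (dlt G)` (`= 1_B / |B|`, `avK_dlt`) in `b` steps, then to `f = avK A (avK B (dlt G))` in `a` steps.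
`f` is left invariant under `A` (`avK_left`) and right invariant under `B` (`avK_right`), so it is constant because every `g` is `x y`: `f (x y) = f 1`.  Its sum is `1` (a lazy step keeps the sum; or `avK` keeps the sum), so it is `uni G`. -/
def StPRD : Prop := ∀ (G : Type) [Group G] [Finite G] (A B : Subgroup G) (a b : ℕ),
  (∀ g : G, ∃ x ∈ A, ∃ y ∈ B, g = x * y) → Mix A a → Mix B b → Mix G (a + b)

/-- SP1.  Symplectic groups of rank one.
PROOF.  `SL_2(F) ≃* SpG 1 F`: `g` acts on `(a, c)` (functions on `Fin 1`) by `(g₀₀ a + g₀₁ c, g₁₀ a + g₁₁ c)`, `om (g v) (g w) = det g · om v w`; conversely the matrix of an element of `SpG 1 F` has determinant `om (g e₀) (g f₀) = 1`.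
Then `slAll 2 F _ _ ⊥` (`Helper84/MXP/Core4.lean`), `good_of_mixlen` (`Helper70/ML/GenFin.lean`), `QuotientGroup.quotientBot` and `pISO` (`Helper70/ML/All.lean`, invariance of `Good` under isomorphisms). -/
def StSP1 : Prop := ∀ (F : Type) [Field F] [Finite F], Nat.card F ≠ 3 → Good 6 (SpG 1 F)

/-- TS3.  `Sp_4(3)` has no nontrivial quotient of odd order.  Uses `StEMB`, `StRRR`, `StDEC`, `StRES`, `StLFI`, `StORD`.
PROOF.  `|F| = 3`, `G = SpG 2 F`, `N` normal of odd index.  (1) If `T ≤ G` has `TS T` then `T ≤ N` (`N.subgroupOf T` has index dividing ... it is odd because `T/(T ∩ N)` embeds in `G/N`: `Subgroup.index_comap`, `Subgroup.relIndex`, `relIndex_dvd_index_of_normal`).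
So `Re 1 F ≤ N` (RES) and `X = φ.range ≤ N`: EMB with `n = 2`, `|K| = 9`, and `TS (SL_2(K))` by `ts_of_mixable` and `slAll 2 K _ _ ⊥`, then `TS.quot` or directly for the range of a homomorphism.
(2) transvections: `r_{0,1} ∈ Re ≤ N`: `r v = v + om e₀ v • e₀`.  For `x ∈ G`: `x r x⁻¹ v = v + om (x e₀) v • x e₀`.  By EMB the element `t = x r x⁻¹` with `x e₀ = (Pi.single 1 1, 0)` is in `N`; `t ∈ Lf`, `t³ = 1`, `t ≠ 1` (`orderOf t = 3`).
(3) `|Lf| = |SpG 1 F| = (3² - 1) · 3 · |SpG 0 F| = 24` (LFI, ORD; `SpG 0 F` is trivial: `VV 0 F` is a point).  `[Lf : Lf ∩ N]` is odd and divides `24`, so it is `1` or `3`; if it were `3` then `|Lf ∩ N| = 8`, but it contains `t` of order `3`.  So `Lf ≤ N`.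
(4) `G = X Re Lf`: for `g ∈ G` EMB gives `x ∈ X` with `x e₀ = g e₀` (nonzero), `x⁻¹ g` fixes `e₀`, DEC.  So `N = ⊤`. -/
def StTS3 : Prop := ∀ (F : Type) [Field F] [Finite F], Nat.card F = 3 → TS (SpG 2 F)

end Pool.Agent.Helper84.SPN
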