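import Pool.Agent.Helper84.SPN.St

/-!
# Project SPN: the induction
-/

set_option autoImplicit false

namespace Pool.Agent.Helper84.SPN

open Pool.Agent.Helper75.MX Pool.Agent.Helper70.ML Pool.Agent.Helper84.MXP Pool.Agent.Helper84.MXQ

theorem mix_range {G G' : Type} [Group G] [Finite G] [Group G'] (φ : G →* G') {k : ℕ}
    (h : Mix G k) : Mix φ.range k :=
  (pISO _ _ ⟨QuotientGroup.quotientKerEquivRange φ⟩).1 k (qQUO G φ.ker k h)

theorem prs (hPRD : StPRD) {G : Type} [Group G] [Finite G] {A B K : Subgroup G} {a b : ℕ}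
    (hA : A ≤ K) (hB : B ≤ K) (hK : ∀ g ∈ K, ∃ x ∈ A, ∃ y ∈ B, g = x * y)
    (h1 : Mix A a) (h2 : Mix B b) : Mix K (a + b) := by
  refine hPRD K (A.subgroupOf K) (B.subgroupOf K) a b ?_
    ((pISO _ _ ⟨(Subgroup.subgroupOfEquivOfLe hA).symm⟩).1 a h1)
    ((pISO _ _ ⟨(Subgroup.subgroupOfEquivOfLe hB).symm⟩).1 b h2)
  rintro ⟨g, hg⟩
  obtain ⟨x, hx, y, hy, rfl⟩ := hK g hg
  exact ⟨⟨x, hA hx⟩, hx, ⟨y, hB hy⟩, hy, rfl⟩

theorem wt_le6 (n : ℕ) : wt n ≤ n ^ 6 := by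
  unfold wt
  calc n * (ordCompl[2] n) ^ 5 ≤ n * n ^ 5 :=
        Nat.mul_le_mul_left _ (Nat.pow_le_pow_left (Nat.div_le_self _ _) 5)
    _ = n ^ 6 := by ring

theorem le_log_of_pow {k n : ℕ} (hn : 0 < n) (h : 2 ^ k ≤ n ^ 6) :
    (k : ℝ) ≤ 6 * Real.logb 2 (n : ℝ) := by
  have h3 : ((2 : ℝ) ^ k) ≤ (n : ℝ) ^ 6 := by exact_mod_cast h
  have h4 : Real.logb 2 ((2 : ℝ) ^ k) ≤ Real.logb 2 ((n : ℝ) ^ 6) :=
    Real.logb_le_logb_of_le (by norm_num) (by positivity) h3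
  rw [Real.logb_pow, Real.logb_pow, Real.logb_self_eq_one (by norm_num), mul_one] at h4
  push_cast at h4 ⊢
  exact h4

instance finSp (n : ℕ) (F : Type) [Field F] [Finite F] : Finite (VV n F ≃ₗ[F] VV n F) :=
  Finite.of_injective (fun g : VV n F ≃ₗ[F] VV n F => (g : VV n F → VV n F))
    (fun _ _ h => LinearEquiv.ext (congrFun h))

theorem e0_ne (m : ℕ) (F : Type) [Field F] : e0 m F ≠ 0 := by
  intro h
  have h1 := congrFun (congrArg Prod.fst h) 0
  simp [e0] at h1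

/-- the induction step -/
theorem step (hEMB : StEMB) (hRRR : StRRR) (hDEC : StDEC) (hLFI : StLFI) (hRES : StRES)
    (hORD : StORD) (hPRD : StPRD) (m : ℕ) (hm : 1 ≤ m) (F : Type) [Field F] [Finite F] (k : ℕ)
    (hk : Mix (SpG m F) k) : ∃ k' : ℕ, Mix (SpG (m + 1) F) k' ∧
      (k' : ℝ) ≤ k + 10 * (Real.logb 2 (Nat.card (SpG (m + 1) F)) -
        Real.logb 2 (Nat.card (SpG m F))) := by
  obtain ⟨K, hK1, hK2, hKc, φ, hφ⟩ := hEMB (m + 1) F (by omega)
  have hq : 2 ≤ Nat.card F := Finite.one_lt_card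
  set q := Nat.card F with hqdef
  have hK4 : 4 ≤ Nat.card K := by
    rw [hKc]
    calc 4 = 2 ^ 2 := by norm_num
      _ ≤ q ^ 2 := Nat.pow_le_pow_left hq 2
      _ ≤ q ^ (m + 1) := Nat.pow_le_pow_right (by omega) (by omega)
  -- the group `SL₂(K)`
  obtain ⟨hx1, hx2⟩ := slAll 2 K le_rfl (by omega) (⊥ : Subgroup (SLn 2 K)) bot_le
  obtain ⟨kx, hkx, hkx'⟩ := (pISO _ _ ⟨QuotientGroup.quotientBot (G := SLn 2 K)⟩).2.1 6
    (good_of_mixlen hx1 hx2)
  -- the group `Re`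
  obtain ⟨hs, hcR, hts⟩ := hRES m F
  obtain ⟨kr, hkr, hkr'⟩ := main _ (Re m F) rfl hs (hts hm)
  -- the group `Ge`
  obtain ⟨e⟩ := hLFI m F
  have hL : Mix (Lf m F) k := (pISO _ _ ⟨e.symm⟩).1 k hk
  have hG : Mix (Ge m F) (kr + k) := by
    refine prs hPRD (A := Re m F) (B := Lf m F) (fun g hg => hg.1) (fun g hg => hg.1) ?_ hkr hL
    intro g hg
    exact hDEC m F g hg
  have hmix : Mix (SpG (m + 1) F) (kx + (kr + k)) := by
    refine hPRD (SpG (m + 1) F) φ.range (Ge m F) _ _ ?_ (mix_range φ hkx) hG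
    intro g
    obtain ⟨x, hx⟩ := hφ (e0 m F) (g.1 (e0 m F)) (e0_ne m F)
      (fun h => e0_ne m F ((LinearEquiv.map_eq_zero_iff g.1).1 h))
    refine ⟨φ x, ⟨x, rfl⟩, (φ x)⁻¹ * g, ?_, by group⟩
    show (φ x).1.symm (g.1 (e0 m F)) = e0 m F
    rw [LinearEquiv.symm_apply_eq]
    exact hx.symm
  refine ⟨_, hmix, ?_⟩
  -- numbers
  have hq0 : (0 : ℝ) < q := by positivity
  set l := Real.logb 2 (q : ℝ) with hl
  have hl1 : 1 ≤ l := by
    rw [hl, Real.le_logb_iff_rpow_le (by norm_num) hq0, Real.rpow_one]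
    exact_mod_cast hq
  have hkxb : (kx : ℝ) ≤ 18 * (m + 1) * l := by
    refine hkx'.trans ?_
    have h1 : Nat.card (SLn 2 K) ≤ q ^ (3 * (m + 1)) := by
      rw [card_SL2, hKc]
      have h3 : (q ^ (m + 1) - 1) * (q ^ (m + 1) + 1) ≤ q ^ (m + 1) * q ^ (m + 1) := by
        obtain ⟨t, ht⟩ : ∃ t, q ^ (m + 1) = t + 1 :=
          ⟨q ^ (m + 1) - 1, by have := Nat.one_le_pow (m + 1) q (by omega); omega⟩
        rw [ht, Nat.add_sub_cancel]
        nlinarith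
      calc q ^ (m + 1) * ((q ^ (m + 1) - 1) * (q ^ (m + 1) + 1))
          ≤ q ^ (m + 1) * (q ^ (m + 1) * q ^ (m + 1)) := Nat.mul_le_mul_left _ h3
        _ = q ^ (3 * (m + 1)) := by rw [← pow_add, ← pow_add]; congr 1; ring
    have h2 : Real.logb 2 (Nat.card (SLn 2 K)) ≤ Real.logb 2 ((q : ℝ) ^ (3 * (m + 1))) :=
      Real.logb_le_logb_of_le (by norm_num) (by exact_mod_cast Nat.card_pos)
        (by exact_mod_cast h1)
    rw [Real.logb_pow] at h2
    push_cast at h2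
    nlinarith
  have hkrb : (kr : ℝ) ≤ 6 + 6 * (2 * m + 1) * l := by
    have h1 : (kr : ℝ) ≤ 6 * Real.logb 2 (Nat.card (Re m F) : ℝ) :=
      le_log_of_pow Nat.card_pos (hkr'.trans (wt_le6 _))
    have h2 : Real.logb 2 (Nat.card (Re m F)) ≤ Real.logb 2 (2 * (q : ℝ) ^ (2 * m + 1)) :=
      Real.logb_le_logb_of_le (by norm_num) (by exact_mod_cast Nat.card_pos)
        (by exact_mod_cast hcR)
    rw [Real.logb_mul (by norm_num) (by positivity), Real.logb_pow,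
      Real.logb_self_eq_one (by norm_num)] at h2
    push_cast at h2
    nlinarith
  have hGb : (2 * m + 1) * l + (2 * m + 1) * l ≤ Real.logb 2 (Nat.card (SpG (m + 1) F)) -
        Real.logb 2 (Nat.card (SpG m F)) := by
    have h0 : (0 : ℝ) < Nat.card (SpG m F) := by exact_mod_cast Nat.card_pos
    have h1 : q ^ (2 * m + 1) * (q ^ (2 * m + 1) * Nat.card (SpG m F)) ≤
        Nat.card (SpG (m + 1) F) := by
      rw [hORD]
      apply Nat.mul_le_mul_right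
      have h2 : q ^ (2 * m + 2) = q * q ^ (2 * m + 1) := by ring
      have h3 : 1 ≤ q ^ (2 * m + 1) := Nat.one_le_pow _ _ (by omega)
      have h4 : 2 * q ^ (2 * m + 1) ≤ q * q ^ (2 * m + 1) := Nat.mul_le_mul_right _ hq
      rw [← hqdef, h2]
      omega
    have h2 : Real.logb 2 ((q : ℝ) ^ (2 * m + 1) * ((q : ℝ) ^ (2 * m + 1) * Nat.card (SpG m F)))
        ≤ Real.logb 2 (Nat.card (SpG (m + 1) F)) :=
      Real.logb_le_logb_of_le (by norm_num) (by positivity) (by exact_mod_cast h1)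
    rw [Real.logb_mul (by positivity) (by positivity), Real.logb_mul (by positivity) (by positivity),
      Real.logb_pow] at h2
    push_cast at h2
    linarith
  have hm1 : (1 : ℝ) ≤ m := by exact_mod_cast hm
  push_cast
  nlinarith

end Pool.Agent.Helper84.SPN
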